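import Pool.Agent.P.MP_307ae8_co.Dich

/-! The adaptive random chain. -/

namespace Pool.Agent.P.MP_307ae8_co

open Finset

variable {κ : Type*} [DecidableEq κ] {c : Finset ℕ → κ} {U : Finset ℕ}

/-- The number of colours of the sets strictly above `R` and below `R ∪ D`. -/
def cnt (c : Finset ℕ → κ) (R D : Finset ℕ) : ℕ :=
  ((D.powerset.filter fun T => T.Nonempty).image fun T => c (R ∪ T)).card

/-- The colour of `R` occurs again below `R ∪ D`. -/
def Bad (c : Finset ℕ → κ) (U R D : Finset ℕ) : Prop :=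
  ∃ T ⊆ D, T.Nonempty ∧ Disjoint T R ∧ T ⊆ U ∧ c (R ∪ T) = c R

omit [DecidableEq κ] in
theorem Bad.up (R : Finset ℕ) : Up (Bad c U R) :=
  fun _ _ h ⟨T, h1, h2⟩ => ⟨T, h1.trans h, h2⟩

theorem cnt_step {R S D : Finset ℕ} (hS : S.Nonempty) (h1 : Disjoint D (R ∪ S)) (h2 : D ⊆ U) :
    (cnt c (R ∪ S) D : ℝ) + 1 - ind (Bad c U (R ∪ S)) D ≤ cnt c R (S ∪ D) := by
  have a1 : ((D.powerset.filter fun T => T.Nonempty).image fun T => c (R ∪ S ∪ T)) ⊆
      ((S ∪ D).powerset.filter fun T => T.Nonempty).image fun T => c (R ∪ T) := fun γ hγ => by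
    obtain ⟨T, hT, rfl⟩ := mem_image.1 hγ
    rw [mem_filter, mem_powerset] at hT
    exact mem_image.2 ⟨S ∪ T, mem_filter.2 ⟨mem_powerset.2 (union_subset_union_right hT.1),
      hS.mono subset_union_left⟩, by rw [union_assoc]⟩
  unfold ind
  split_ifs with h
  · rw [add_sub_cancel_right]
    exact Nat.cast_le.2 (card_le_card a1)
  · have a2 : c (R ∪ S) ∉ (D.powerset.filter fun T => T.Nonempty).image
        fun T => c (R ∪ S ∪ T) := fun h3 => by
      obtain ⟨T, hT, h4⟩ := mem_image.1 h3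
      rw [mem_filter, mem_powerset] at hT
      exact h ⟨T, hT.1, hT.2, h1.mono_left hT.1, hT.1.trans h2, h4⟩
    have a3 := card_le_card (insert_subset (mem_image.2 ⟨S, mem_filter.2
      ⟨mem_powerset.2 subset_union_left, hS⟩, rfl⟩) a1)
    rw [card_insert_of_notMem a2] at a3
    rw [sub_zero]
    exact_mod_cast a3

theorem pow_bound {δ : ℝ} (h0 : 0 ≤ δ) (h1 : δ ≤ 1) (k : ℕ) :
    0 ≤ (1 - δ) ^ k - 1 + k * δ ∧ (1 - δ) ^ k - 1 + k * δ ≤ (k * δ) ^ 2 := by
  induction k with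
  | zero => simp
  | succ k ih =>
    have a1 := mul_nonneg ih.1 (sub_nonneg.2 h1)
    have a2 := mul_nonneg ih.1 h0
    have a3 : 0 ≤ (k : ℝ) * δ ^ 2 := by positivity
    have a4 := sq_nonneg δ
    rw [pow_succ, Nat.cast_succ]
    constructor <;> nlinarith [ih.2]

theorem chain (hc : ∀ R, Ins (Bad c U R)) {δ : ℝ} (d0 : 0 ≤ δ) (d1 : δ ≤ 1) (p V h : ℕ → ℝ)
    (L : ℕ) (p0 : p 0 = 0) (pp : ∀ r, 0 ≤ p r ∧ p r ≤ 1)
    (ps : ∀ r, 1 - p (r + 1) = (1 - δ) * (1 - p r)) (V0 : V 0 ≤ 0)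
    (Vs : ∀ r < L, V (r + 1) ≤ (1 - δ) * V r + δ * (1 - h r))
    (hh : ∀ r < L, 0 ≤ h r ∧ h r ≤ 1)
    (hd : ∀ r < L, ∀ X F, Up F → Ins F →
      μ (p r) X F ≤ h r ∨ ∃ e ∈ X, μ (p r) (X.erase e) F + V r ≤ h r) :
    ∀ r ≤ L, ∀ R X (Ψ : Finset ℕ → ℝ), Disjoint X R → X ⊆ U → Monotone Ψ →
      ∃ D ⊆ X, X.card * V r - E (p r) X Ψ - r * (U.card * δ) ^ 2 ≤ cnt c R D - Ψ D := by
  intro r
  induction r with
  | zero =>
    intro _ R X Ψ _ _ _
    refine ⟨∅, empty_subset _, ?_⟩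
    have a1 := mul_nonpos_of_nonneg_of_nonpos (Nat.cast_nonneg X.card) V0
    have a2 : (0 : ℝ) ≤ cnt c R ∅ := Nat.cast_nonneg _
    rw [p0, E_zero, Nat.cast_zero]
    linarith
  | succ r ih =>
    intro hr R X Ψ hX hU hΨ
    replace ih := ih (Nat.le_of_succ_le hr)
    obtain ⟨D0, hD0, hM⟩ := exists_max_image X.powerset (fun D => (cnt c R D : ℝ) - Ψ D)
      (powerset_nonempty X)
    refine ⟨D0, mem_powerset.1 hD0, ?_⟩
    have key : ∀ S ⊆ X, (1 - h r) * (1 - if S = ∅ then 1 else 0) + V r * (X.card - S.card) -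
        (E (p r) (X \ S) fun D => Ψ (S ∪ D)) - r * (U.card * δ) ^ 2 ≤ cnt c R D0 - Ψ D0 := by
      intro S hS
      have m1 : Monotone fun D => Ψ (S ∪ D) := fun _ _ h => hΨ (union_subset_union_right h)
      have e1 : ((X \ S).card : ℝ) = X.card - S.card := by
        rw [card_sdiff_of_subset hS, Nat.cast_sub (card_le_card hS)]
      have dj : Disjoint (X \ S) (R ∪ S) :=
        disjoint_union_right.2 ⟨hX.mono_left sdiff_subset, sdiff_disjoint⟩
      split_ifs with h0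
      · subst h0
        obtain ⟨D, hD, h1⟩ := ih R X Ψ hX hU hΨ
        have := hM D (mem_powerset.2 hD)
        simp only [sdiff_empty, empty_union, card_empty, Nat.cast_zero]
        linarith
      have k2 : ∀ Y ⊆ X \ S, 1 + Y.card * V r - (E (p r) Y fun D => Ψ (S ∪ D)) -
          μ (p r) Y (Bad c U (R ∪ S)) - r * (U.card * δ) ^ 2 ≤ cnt c R D0 - Ψ D0 := by
        intro Y hY
        obtain ⟨D, hD, h1⟩ := ih (R ∪ S) Y (fun D => Ψ (S ∪ D) + ind (Bad c U (R ∪ S)) D)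
          (dj.mono_left hY) (hY.trans (sdiff_subset.trans hU)) (m1.add (Bad.up _).mono)
        have h2 := cnt_step (c := c) (U := U) (nonempty_iff_ne_empty.2 h0)
          (dj.mono_left (hD.trans hY)) (hD.trans (hY.trans (sdiff_subset.trans hU)))
        have h3 := hM (S ∪ D) (mem_powerset.2
          (union_subset hS (hD.trans (hY.trans sdiff_subset))))
        rw [E_add] at h1
        unfold μ
        linarith
      rcases hd r hr (X \ S) _ (Bad.up (R ∪ S)) (hc _) with h1 | ⟨e, he, h1⟩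
      · have := k2 _ Subset.rfl
        rw [e1] at this
        linarith
      · have h2 := k2 _ (erase_subset e _)
        have h3 := E_erase_le (X := X \ S) (pp r).1 (pp r).2 m1 e
        rw [cast_card_erase_of_mem he, e1] at h2
        linarith
    have k3 := E_mono d0 d1 key
    rw [E_const, E_sub, E_sub, E_add, E_mul, E_mul, E_sub, E_sub, E_const, E_const, E_const,
      E_ite, E_card, E_comp (ps r)] at k3
    have b1 := (pow_bound d0 d1 X.card).2
    have b2 : ((X.card : ℝ) * δ) ^ 2 ≤ (U.card * δ) ^ 2 := by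
      have := card_le_card hU
      gcongr
    have b3 := mul_le_mul_of_nonneg_left (b1.trans b2) (sub_nonneg.2 (hh r hr).2)
    have b4 := mul_nonneg (hh r hr).1 (sq_nonneg (U.card * δ))
    have b5 := mul_le_mul_of_nonneg_left (Vs r hr) (Nat.cast_nonneg (α := ℝ) X.card)
    rw [Nat.cast_succ]
    linarith

end Pool.Agent.P.MP_307ae8_co
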