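import Pool.Agent.P.MP_307ae8_co.Shift

/-! An intersecting family is close to a star or has small biased measure. -/

namespace Pool.Agent.P.MP_307ae8_co

open Finset

variable {p x y : ℝ} {X : Finset ℕ} {F : Finset ℕ → Prop}

theorem CH.mid (h : CH p x y) (k l : ℕ) (h1 : p ^ k ≤ x) (h2 : x ≤ p ^ l) :
    ∃ s : ℝ, 0 ≤ s ∧ s ≤ 1 ∧ x = (1 - s) * p ^ k + s * p ^ l ∧
      (1 - s) * (1 - p) ^ k + s * (1 - p) ^ l ≤ 1 - y := by
  obtain ⟨s, s0, s1, hs⟩ := exists_comb h1 h2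
  exact ⟨s, s0, s1, hs, h _ _ k l (sub_nonneg.2 s1) s0 (by linarith) hs.ge⟩

theorem CH.low (h : CH p x y) (l : ℕ) (h1 : 0 ≤ x) (h2 : x ≤ p ^ l) :
    ∃ s : ℝ, 0 ≤ s ∧ s ≤ 1 ∧ x = s * p ^ l ∧ s * (1 - p) ^ l ≤ 1 - y := by
  obtain ⟨s, s0, s1, hs⟩ := exists_comb h1 h2
  have := h 0 s 0 l le_rfl s0 (by linarith) (by linarith)
  exact ⟨s, s0, s1, by linarith, by linarith⟩

theorem core {c m M e b : ℝ} (h0 : 0 < p) (h1 : p ≤ 1 / 2) (c0 : 0 ≤ c) (cm : c ≤ m) (mM : m ≤ M)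
    (hd : p ^ 4 < (1 - p) * c + p * m) (hc : (1 - p) ^ 2 * c ≤ p ^ 3) (H1 : CH p m M)
    (H2 : CH p c e) (hb1 : p * (1 - (1 - p) ^ 4) + (1 - p) * p ^ 4 ≤ b)
    (hb2 : (1 - p) ^ 2 * (3 * p ^ 2 - 2 * p ^ 3) + (p ^ 3 - p ^ 2 * (1 - p) ^ 2) * (1 - 2 * p) ≤
      (1 - p) ^ 2 * b) : (1 - p) ^ 2 * c + p * (1 - p) * (m + M) + p ^ 2 * e ≤ b := by
  have q0 : 0 < 1 - p := by linarith
  have r0 : 0 ≤ 1 - 2 * p := by linarith
  have pq := (mul_pos h0 q0).le
  have p2 := (pow_pos h0 2).le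
  have w0 : 0 ≤ p ^ 2 * (1 - p) ^ 2 * (1 - 2 * p) := by positivity
  have mp : m ≤ p ^ 1 := by
    by_contra h
    have := H1 1 0 1 0 zero_le_one le_rfl (by norm_num) (by linarith [not_le.1 h])
    exact h (by linarith)
  have t1 : c ≤ p ^ 2 → (1 - p) ^ 2 * c + p ^ 2 * e ≤ p ^ 2 := fun h => by
    obtain ⟨s, -, -, a1, a2⟩ := H2.low 2 c0 h
    have := mul_le_mul_of_nonneg_left a2 p2
    rw [a1]
    linarith
  rcases le_total (p ^ 2) m with h2 | h2
  · obtain ⟨s, -, -, a1, a2⟩ := H1.mid 2 1 h2 mp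
    have a3 := mul_le_mul_of_nonneg_left (show m + M ≤ 2 * p by linarith) pq
    rcases le_total c (p ^ 2) with h3 | h3
    · linarith [t1 h3]
    · obtain ⟨s', -, -, a4, a5⟩ := H2.mid 2 1 h3 (cm.trans mp)
      have a6 := mul_le_mul_of_nonneg_left a5 p2
      have a7 : (1 - p) ^ 2 * c + p * (1 - p) * (m + M) + p ^ 2 * e ≤
          3 * p ^ 2 - 2 * p ^ 3 + (c - p ^ 2) * (1 - 2 * p) := by
        rw [a4]
        linarith
      have a8 := mul_le_mul_of_nonneg_left a7 (pow_pos q0 2).le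
      have a9 := mul_le_mul_of_nonneg_right hc r0
      exact le_of_mul_le_mul_left (by linarith) (pow_pos q0 2)
  rcases le_total (p ^ 3) m with h3 | h3
  · obtain ⟨s, s0, -, a1, a2⟩ := H1.mid 3 2 h3 h2
    have a4 : 0 ≤ s * (p * (1 - p) * (1 - 2 * p)) := by positivity
    have a3 := mul_le_mul_of_nonneg_left
      (show m + M ≤ p ^ 3 + 1 - (1 - p) ^ 3 by linarith) pq
    linarith [t1 (cm.trans h2)]
  have h4 : p ^ 4 ≤ m := by nlinarith
  obtain ⟨s, s0, s1, a1, a2⟩ := H1.mid 4 3 h4 h3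
  have a3 := mul_le_mul_of_nonneg_left (show m + M ≤ (1 - s) * p ^ 4 + s * p ^ 3 + 1 -
    ((1 - s) * (1 - p) ^ 4 + s * (1 - p) ^ 3) by linarith) pq
  have a4 : (1 - p) ^ 2 * c + p ^ 2 * e ≤
      p ^ 2 - (1 - s) * (p ^ 2 * (1 - p) ^ 2 * (1 - 2 * p)) := by
    rcases le_total c (p ^ 4) with h5 | h5
    · obtain ⟨s', -, -, a5, a6⟩ := H2.low 4 c0 h5
      have a7 : 1 - s ≤ s' := by
        refine le_of_mul_le_mul_left ?_ (mul_pos (pow_pos h0 4) q0)
        rw [a5, a1] at hd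
        linarith
      have a8 := mul_le_mul_of_nonneg_left a6 p2
      have a9 := mul_le_mul_of_nonneg_right a7 w0
      rw [a5]
      linarith
    · obtain ⟨s', -, -, a5, a6⟩ := H2.mid 4 3 h5 (cm.trans h3)
      have a8 := mul_le_mul_of_nonneg_left a6 p2
      have a9 := mul_nonneg s0 w0
      rw [a5]
      linarith
  linarith

theorem two_level {b : ℝ} (h0 : 0 < p) (h1 : p ≤ 1 / 2) (hF : Up F) (hI : Ins F) {i j : ℕ}
    (hi : i ∈ X) (hj : j ∈ X) (hij : i ≠ j) (ha : ∀ e ∈ X, p ^ 4 < μ p (X.erase e) F)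
    (hc : (1 - p) ^ 2 * μ p ((X.erase i).erase j) F ≤ p ^ 3)
    (hb1 : p * (1 - (1 - p) ^ 4) + (1 - p) * p ^ 4 ≤ b)
    (hb2 : (1 - p) ^ 2 * (3 * p ^ 2 - 2 * p ^ 3) + (p ^ 3 - p ^ 2 * (1 - p) ^ 2) * (1 - 2 * p) ≤
      (1 - p) ^ 2 * b) : μ p X F ≤ b := by
  have p1 : p ≤ 1 := by linarith
  set Y := (X.erase i).erase j with hY
  have jY : j ∉ Y := notMem_erase _ _
  have iY : i ∉ Y := fun h => notMem_erase i X (mem_of_mem_erase h)
  have iY' : i ∉ insert j Y := fun h => (mem_insert.1 h).elim hij iY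
  have e1 : X.erase i = insert j Y := (insert_erase (mem_erase.2 ⟨hij.symm, hj⟩)).symm
  have e2 : X.erase j = insert i Y := by
    rw [hY, erase_right_comm, insert_erase (mem_erase.2 ⟨hij, hi⟩)]
  have e3 : X = insert i (insert j Y) := by rw [← e1, insert_erase hi]
  have a1 := ha i hi
  have a2 := ha j hj
  rw [e1, μ_insert jY] at a1
  rw [e2, μ_insert iY] at a2
  have c1 : Cr Y (fun D => F (insert i (insert j D))) F := (hI.cr.ins iY').ins jY
  have c2 : Cr Y (fun D => F (insert j D)) (fun D => F (insert i D)) :=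
    (hI.cr.ins iY').symm.ins jY
  have H2 := c1.ch h0 h1 hF
  have b1 := μ_le_ins (X := Y) h0.le p1 hF i
  have b2 := μ_le_ins (X := Y) h0.le p1 hF j
  have b3 := μ_nonneg (X := Y) (F := F) h0.le p1
  rw [e3, μ_insert iY', μ_insert jY, μ_insert jY]
  rcases le_total (μ p Y fun D => F (insert i D)) (μ p Y fun D => F (insert j D)) with h | h
  · linarith [core h0 h1 b3 b1 h a2 hc (c2.ch h0 h1 (hF.ins i)) H2 hb1 hb2]
  · linarith [core h0 h1 b3 b2 h a1 hc (c2.symm.ch h0 h1 (hF.ins j)) H2 hb1 hb2]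

theorem μ_empty (hI : Ins F) : μ p ∅ F = 0 := by
  rw [μ, E_empty, ind, if_neg fun h => hI _ _ h h (disjoint_empty_left _)]

theorem dich {b : ℝ} (h0 : 0 ≤ p) (h1 : p ≤ 1 / 2) (hF : Up F) (hI : Ins F)
    (hb1 : p * (1 - (1 - p) ^ 4) + (1 - p) * p ^ 4 ≤ b)
    (hb2 : (1 - p) ^ 2 * (3 * p ^ 2 - 2 * p ^ 3) + (p ^ 3 - p ^ 2 * (1 - p) ^ 2) * (1 - 2 * p) ≤
      (1 - p) ^ 2 * b) : μ p X F ≤ b ∨ ∃ e ∈ X, μ p (X.erase e) F ≤ p ^ 4 := by
  have p1 : p ≤ 1 := by linarith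
  have q0 : 0 ≤ 1 - p := by linarith
  have b0 : 0 ≤ b := le_trans (add_nonneg (mul_nonneg h0 (sub_nonneg.2
    (pow_le_one₀ q0 (by linarith)))) (by positivity)) hb1
  rcases h0.eq_or_lt with rfl | h0
  · refine Or.inl ?_
    rwa [μ, E_zero, ind, if_neg fun h => hI _ _ h h (disjoint_empty_left _)]
  by_contra h
  simp only [not_or, not_exists, not_and, not_le] at h
  obtain ⟨G, g1, g2, g3, g4, g5⟩ := exists_shift h0.le p1 hF hI h.2
  refine absurd h.1 (not_lt.2 ?_)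
  rw [← g3]
  rcases g5 with g5 | ⟨i, hi, j, hj, hij, g5⟩
  · induction X using Finset.induction_on_min with
    | empty => rwa [μ_empty g2]
    | insert i Y hi =>
      have iY : i ∉ Y := fun h => lt_irrefl _ (hi i h)
      induction Y using Finset.induction_on_min with
      | empty =>
        have := g4 i (mem_insert_self _ _)
        rw [erase_insert iY, μ_empty g2] at this
        exact absurd this (not_lt.2 (by positivity))
      | insert j Z hj =>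
        have jZ : j ∉ Z := fun h => lt_irrefl _ (hj j h)
        refine two_level h0 h1 g1 g2 (mem_insert_self _ _)
          (mem_insert_of_mem (mem_insert_self _ _)) (hi j (mem_insert_self _ _)).ne g4 ?_ hb1 hb2
        rw [erase_insert iY, erase_insert jZ]
        exact TI.bound h0 h1 g1 ((g2.ti.sub hi g5).sub hj g5.sub) g5.sub.sub
  · refine two_level h0 h1 g1 g2 hi hj hij g4 ?_ hb1 hb2
    have a1 := μ_nonneg (X := (X.erase i).erase j) (F := G) h0.le p1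
    have a2 : (1 - p) ^ 2 ≤ 1 := pow_le_one₀ q0 (by linarith)
    have a3 : p ^ 4 ≤ p ^ 3 := pow_le_pow_of_le_one h0.le p1 (by norm_num)
    nlinarith

end Pool.Agent.P.MP_307ae8_co
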