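import Mathlib

/-! The polynomial potential and the inequalities it satisfies. -/

namespace Pool.Agent.P.MP_307ae8_co

/-- The value of an available element. -/
noncomputable def Vf (p : ℝ) : ℝ :=
  49929 / 50000 * p - 11033 / 25000 * p ^ 2 - 4052 / 3125 * p ^ 3 + 87543 / 6250 * p ^ 4 - 251414
    / 3125 * p ^ 5 + 771764 / 3125 * p ^ 6 - 1194068 / 3125 * p ^ 7 + 716256 / 3125 * p ^ 8

/-- The admissible cost of a new constraint. -/
noncomputable def hf (p : ℝ) : ℝ :=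
  71 / 50000 + 11033 / 12500 * p + 17243 / 5000 * p ^ 2 - 36638 / 625 * p ^ 3 + 2776769 / 6250 *
    p ^ 4 - 1127248 / 625 * p ^ 5 + 12217296 / 3125 * p ^ 6 - 12894456 / 3125 * p ^ 7 + 5013792 /
    3125 * p ^ 8

variable {p : ℝ}

theorem num1 (h0 : 0 ≤ p) (h1 : p ≤ 1 / 2) :
    p ^ 4 + Vf p ≤ hf p := by
  unfold Vf hf
  rcases le_total p (1 / 16) with h1 | h0
  · have : ∀ x y : ℝ, 0 ≤ x → 0 ≤ y →
        0 ≤ (19058917376 / 3125) * x ^ 0 * y ^ 8 + (55213817856 / 3125) * x ^ 1 * y ^ 7 +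
          (11358175232 / 625) * x ^ 2 * y ^ 6 + (60714647552 / 3125) * x ^ 3 * y ^ 5 +
          (137985261568 / 3125) * x ^ 4 * y ^ 4 + (193371594752 / 3125) * x ^ 5 * y ^ 3 +
          (136257092608 / 3125) * x ^ 6 * y ^ 2 + (9459974848 / 625) * x ^ 7 * y ^ 1 +
          (6512084224 / 3125) * x ^ 8 * y ^ 0 :=
      fun x y _ _ => by positivity
    linarith [this (p - 0) ((1 / 16) - p) (by linarith) (by linarith)]
  rcases le_total p (1 / 8) with h1 | h0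
  · have : ∀ x y : ℝ, 0 ≤ x → 0 ≤ y →
        0 ≤ (6512084224 / 3125) * x ^ 0 * y ^ 8 + (56893473344 / 3125) * x ^ 1 * y ^ 7 +
          (203412286336 / 3125) * x ^ 2 * y ^ 6 + (385937812736 / 3125) * x ^ 3 * y ^ 5 +
          (429264414208 / 3125) * x ^ 4 * y ^ 4 + (11646553088 / 125) * x ^ 5 * y ^ 3 +
          (120263354368 / 3125) * x ^ 6 * y ^ 2 + (28567072768 / 3125) * x ^ 7 * y ^ 1 +
          (3114344448 / 3125) * x ^ 8 * y ^ 0 :=
      fun x y _ _ => by positivity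
    linarith [this (p - (1 / 16)) ((1 / 8) - p) (by linarith) (by linarith)]
  rcases le_total p (1 / 4) with h1 | h0
  · have : ∀ x y : ℝ, 0 ≤ x → 0 ≤ y →
        0 ≤ (12165408 / 3125) * x ^ 0 * y ^ 8 + (68789536 / 3125) * x ^ 1 * y ^ 7 + (258012352 /
          3125) * x ^ 2 * y ^ 6 + (938227328 / 3125) * x ^ 3 * y ^ 5 + (2099016448 / 3125) * x ^
          4 * y ^ 4 + (2360718848 / 3125) * x ^ 5 * y ^ 3 + (1301718016 / 3125) * x ^ 6 * y ^ 2 +
          (330856448 / 3125) * x ^ 7 * y ^ 1 + (31977472 / 3125) * x ^ 8 * y ^ 0 :=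
      fun x y _ _ => by positivity
    linarith [this (p - (1 / 8)) ((1 / 4) - p) (by linarith) (by linarith)]
  rcases le_total p (5 / 16) with h1 | h0
  · have : ∀ x y : ℝ, 0 ≤ x → 0 ≤ y →
        0 ≤ (8186232832 / 3125) * x ^ 0 * y ^ 8 + (11177033728 / 625) * x ^ 1 * y ^ 7 +
          (154371555328 / 3125) * x ^ 2 * y ^ 6 + (220424781824 / 3125) * x ^ 3 * y ^ 5 +
          (177169420288 / 3125) * x ^ 4 * y ^ 4 + (95075290112 / 3125) * x ^ 5 * y ^ 3 +
          (54871437568 / 3125) * x ^ 6 * y ^ 2 + (6308821184 / 625) * x ^ 7 * y ^ 1 + (8334998016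
          / 3125) * x ^ 8 * y ^ 0 :=
      fun x y _ _ => by positivity
    linarith [this (p - (1 / 4)) ((5 / 16) - p) (by linarith) (by linarith)]
  rcases le_total p (3 / 8) with h1 | h0
  · have : ∀ x y : ℝ, 0 ≤ x → 0 ≤ y →
        0 ≤ (8334998016 / 3125) * x ^ 0 * y ^ 8 + (101815862336 / 3125) * x ^ 1 * y ^ 7 +
          (109354746496 / 625) * x ^ 2 * y ^ 6 + (1647756174592 / 3125) * x ^ 3 * y ^ 5 +
          (3021550893568 / 3125) * x ^ 4 * y ^ 4 + (3444966116352 / 3125) * x ^ 5 * y ^ 3 +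
          (2385688025088 / 3125) * x ^ 6 * y ^ 2 + (183699288064 / 625) * x ^ 7 * y ^ 1 +
          (150691241984 / 3125) * x ^ 8 * y ^ 0 :=
      fun x y _ _ => by positivity
    linarith [this (p - (5 / 16)) ((3 / 8) - p) (by linarith) (by linarith)]
  have : ∀ x y : ℝ, 0 ≤ x → 0 ≤ y →
      0 ≤ (588637664 / 3125) * x ^ 0 * y ^ 8 + (6951550496 / 3125) * x ^ 1 * y ^ 7 + (6984448896
        / 625) * x ^ 2 * y ^ 6 + (97122313728 / 3125) * x ^ 3 * y ^ 5 + (162818295808 / 3125) * x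
        ^ 4 * y ^ 4 + (167389487104 / 3125) * x ^ 5 * y ^ 3 + (101998690304 / 3125) * x ^ 6 * y ^
        2 + (33081786368 / 3125) * x ^ 7 * y ^ 1 + (4221566976 / 3125) * x ^ 8 * y ^ 0 :=
    fun x y _ _ => by positivity
  linarith [this (p - (3 / 8)) ((1 / 2) - p) (by linarith) (by linarith)]

theorem num2 (h0 : 0 ≤ p) (h1 : p ≤ 1 / 2) :
    p * (1 - (1 - p) ^ 4) + (1 - p) * p ^ 4 ≤ hf p := by
  unfold hf
  rcases le_total p (1 / 4) with h1 | h0
  · have : ∀ x y : ℝ, 0 ≤ x → 0 ≤ y →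
        0 ≤ (290816 / 3125) * x ^ 0 * y ^ 8 + (47517696 / 3125) * x ^ 1 * y ^ 7 + (317423104 /
          3125) * x ^ 2 * y ^ 6 + (754566144 / 3125) * x ^ 3 * y ^ 5 + (1005672832 / 3125) * x ^
          4 * y ^ 4 + (818338944 / 3125) * x ^ 5 * y ^ 3 + (390500224 / 3125) * x ^ 6 * y ^ 2 +
          (19701536 / 625) * x ^ 7 * y ^ 1 + (2011456 / 625) * x ^ 8 * y ^ 0 :=
      fun x y _ _ => by positivity
    linarith [this (p - 0) ((1 / 4) - p) (by linarith) (by linarith)]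
  rcases le_total p (3 / 8) with h1 | h0
  · have : ∀ x y : ℝ, 0 ≤ x → 0 ≤ y →
        0 ≤ (514932736 / 625) * x ^ 0 * y ^ 8 + (3657396224 / 625) * x ^ 1 * y ^ 7 + (54801504256
          / 3125) * x ^ 2 * y ^ 6 + (89578269696 / 3125) * x ^ 3 * y ^ 5 + (86130222592 / 3125) *
          x ^ 4 * y ^ 4 + (9797307648 / 625) * x ^ 5 * y ^ 3 + (15773705344 / 3125) * x ^ 6 * y ^
          2 + (2591870016 / 3125) * x ^ 7 * y ^ 1 + (168576992 / 3125) * x ^ 8 * y ^ 0 :=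
      fun x y _ _ => by positivity
    linarith [this (p - (1 / 4)) ((3 / 8) - p) (by linarith) (by linarith)]
  rcases le_total p (13 / 32) with h1 | h0
  · have : ∀ x y : ℝ, 0 ≤ x → 0 ≤ y →
        0 ≤ (11047861747712 / 3125) * x ^ 0 * y ^ 8 + (68013419134976 / 3125) * x ^ 1 * y ^ 7 +
          (176382563057664 / 3125) * x ^ 2 * y ^ 6 + (49875314212864 / 625) * x ^ 3 * y ^ 5 +
          (207979097751552 / 3125) * x ^ 4 * y ^ 4 + (103966206857216 / 3125) * x ^ 5 * y ^ 3 +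
          (30991037561856 / 3125) * x ^ 6 * y ^ 2 + (1140279464192 / 625) * x ^ 7 * y ^ 1 +
          (131407854496 / 625) * x ^ 8 * y ^ 0 :=
      fun x y _ _ => by positivity
    linarith [this (p - (3 / 8)) ((13 / 32) - p) (by linarith) (by linarith)]
  rcases le_total p (7 / 16) with h1 | h0
  · have : ∀ x y : ℝ, 0 ≤ x → 0 ≤ y →
        0 ≤ (131407854496 / 625) * x ^ 0 * y ^ 8 + (962246207744 / 625) * x ^ 1 * y ^ 7 +
          (24759873586176 / 3125) * x ^ 2 * y ^ 6 + (83362462995456 / 3125) * x ^ 3 * y ^ 5 +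
          (167272018199552 / 3125) * x ^ 4 * y ^ 4 + (199005823102976 / 3125) * x ^ 5 * y ^ 3 +
          (138249325576192 / 3125) * x ^ 6 * y ^ 2 + (51893986902016 / 3125) * x ^ 7 * y ^ 1 +
          (1627050483712 / 625) * x ^ 8 * y ^ 0 :=
      fun x y _ _ => by positivity
    linarith [this (p - (13 / 32)) ((7 / 16) - p) (by linarith) (by linarith)]
  have : ∀ x y : ℝ, 0 ≤ x → 0 ≤ y →
      0 ≤ (6355665952 / 625) * x ^ 0 * y ^ 8 + (357258141568 / 3125) * x ^ 1 * y ^ 7 +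
        (1654427585536 / 3125) * x ^ 2 * y ^ 6 + (4087810408448 / 3125) * x ^ 3 * y ^ 5 +
        (5849747259392 / 3125) * x ^ 4 * y ^ 4 + (4877298696192 / 3125) * x ^ 5 * y ^ 3 +
        (2207627870208 / 3125) * x ^ 6 * y ^ 2 + (423356268544 / 3125) * x ^ 7 * y ^ 1 +
        (2147483648 / 3125) * x ^ 8 * y ^ 0 :=
    fun x y _ _ => by positivity
  linarith [this (p - (7 / 16)) ((1 / 2) - p) (by linarith) (by linarith)]

theorem num3 (h0 : 0 ≤ p) (h1 : p ≤ 1 / 2) :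
    (1 - p) ^ 2 * (3 * p ^ 2 - 2 * p ^ 3) + (p ^ 3 - p ^ 2 * (1 - p) ^ 2) * (1 - 2 * p) ≤
      (1 - p) ^ 2 * hf p := by
  unfold hf
  rcases le_total p (1 / 4) with h1 | h0
  · have : ∀ x y : ℝ, 0 ≤ x → 0 ≤ y →
        0 ≤ (4653056 / 3125) * x ^ 0 * y ^ 10 + (153452544 / 625) * x ^ 1 * y ^ 9 + (6631411712 /
          3125) * x ^ 2 * y ^ 8 + (22832472064 / 3125) * x ^ 3 * y ^ 7 + (44852360704 / 3125) * x
          ^ 4 * y ^ 6 + (56686266368 / 3125) * x ^ 5 * y ^ 5 + (47650393728 / 3125) * x ^ 6 * y ^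
          4 + (26367178752 / 3125) * x ^ 7 * y ^ 3 + (9179202816 / 3125) * x ^ 8 * y ^ 2 +
          (362948768 / 625) * x ^ 9 * y ^ 1 + (30983104 / 625) * x ^ 10 * y ^ 0 :=
      fun x y _ _ => by positivity
    linarith [this (p - 0) ((1 / 4) - p) (by linarith) (by linarith)]
  rcases le_total p (3 / 8) with h1 | h0
  · have : ∀ x y : ℝ, 0 ≤ x → 0 ≤ y →
        0 ≤ (31726698496 / 625) * x ^ 0 * y ^ 10 + (290070708224 / 625) * x ^ 1 * y ^ 9 +
          (5868007612416 / 3125) * x ^ 2 * y ^ 8 + (13809020092416 / 3125) * x ^ 3 * y ^ 7 +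
          (20887853801472 / 3125) * x ^ 4 * y ^ 6 + (4234943014912 / 625) * x ^ 5 * y ^ 5 +
          (14538362051584 / 3125) * x ^ 6 * y ^ 4 + (6662879497216 / 3125) * x ^ 7 * y ^ 3 +
          (1947594006272 / 3125) * x ^ 8 * y ^ 2 + (65507073984 / 625) * x ^ 9 * y ^ 1 +
          (962304992 / 125) * x ^ 10 * y ^ 0 :=
      fun x y _ _ => by positivity
    linarith [this (p - (1 / 4)) ((3 / 8) - p) (by linarith) (by linarith)]
  rcases le_total p (7 / 16) with h1 | h0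
  · have : ∀ x y : ℝ, 0 ≤ x → 0 ≤ y →
        0 ≤ (985400311808 / 125) * x ^ 0 * y ^ 10 + (40365401505792 / 625) * x ^ 1 * y ^ 9 +
          (728954127982592 / 3125) * x ^ 2 * y ^ 8 + (1523791507357696 / 3125) * x ^ 3 * y ^ 7 +
          (2034019907842048 / 3125) * x ^ 4 * y ^ 6 + (1803534118805504 / 3125) * x ^ 5 * y ^ 5 +
          (1070187516183552 / 3125) * x ^ 6 * y ^ 4 + (417275036024832 / 3125) * x ^ 7 * y ^ 3 +
          (101844903475584 / 3125) * x ^ 8 * y ^ 2 + (14063033258752 / 3125) * x ^ 9 * y ^ 1 +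
          (169848942112 / 625) * x ^ 10 * y ^ 0 :=
      fun x y _ _ => by positivity
    linarith [this (p - (3 / 8)) ((7 / 16) - p) (by linarith) (by linarith)]
  have : ∀ x y : ℝ, 0 ≤ x → 0 ≤ y →
      0 ≤ (169848942112 / 625) * x ^ 0 * y ^ 10 + (2921860952448 / 3125) * x ^ 1 * y ^ 9 +
        (1574352718848 / 3125) * x ^ 2 * y ^ 8 + (2441552461824 / 3125) * x ^ 3 * y ^ 7 +
        (38070078701568 / 3125) * x ^ 4 * y ^ 6 + (111364102684672 / 3125) * x ^ 5 * y ^ 5 +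
        (150910307139584 / 3125) * x ^ 6 * y ^ 4 + (110584402018304 / 3125) * x ^ 7 * y ^ 3 +
        (43041880539136 / 3125) * x ^ 8 * y ^ 2 + (7271379632128 / 3125) * x ^ 9 * y ^ 1 +
        (137438953472 / 3125) * x ^ 10 * y ^ 0 :=
    fun x y _ _ => by positivity
  linarith [this (p - (7 / 16)) ((1 / 2) - p) (by linarith) (by linarith)]

theorem num4 (h0 : 0 ≤ p) (h1 : p ≤ 1 / 2) :
    hf p ≤ 1 := by
  unfold hf
  have : ∀ x y : ℝ, 0 ≤ x → 0 ≤ y →
      0 ≤ (798864 / 3125) * x ^ 0 * y ^ 8 + (6037856 / 3125) * x ^ 1 * y ^ 7 + (3841416 / 625) *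
        x ^ 2 * y ^ 6 + (39045968 / 3125) * x ^ 3 * y ^ 5 + (40313968 / 3125) * x ^ 4 * y ^ 4 +
        (33439136 / 3125) * x ^ 5 * y ^ 3 + (3268936 / 625) * x ^ 6 * y ^ 2 + (3555296 / 3125) *
        x ^ 7 * y ^ 1 + (399872 / 3125) * x ^ 8 * y ^ 0 :=
    fun x y _ _ => by positivity
  linarith [this (p - 0) ((1 / 2) - p) (by linarith) (by linarith)]

end Pool.Agent.P.MP_307ae8_co
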