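import Pool.Agent.P.MP_307ae8_co.Chain
import Pool.Agent.P.MP_307ae8_co.Num

/-! The lower bound for the number of colours. -/

namespace Pool.Agent.P.MP_307ae8_co

open Finset

theorem step {q δ : ℝ} (q0 : 0 ≤ q) (q1 : q ≤ 1) (d0 : 0 ≤ δ) (d1 : δ ≤ 1) :
    Vf (1 - (1 - δ) * q) ≤ (1 - δ) * Vf (1 - q) + δ * (1 - hf (1 - q)) + 260000 * δ ^ 2 := by
  have h : ∀ k : ℕ, 0 ≤ q ^ k * ((1 - δ) ^ k - 1 + k * δ) ∧
      q ^ k * ((1 - δ) ^ k - 1 + k * δ) ≤ (k * δ) ^ 2 := fun k =>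
    ⟨mul_nonneg (pow_nonneg q0 k) (pow_bound d0 d1 k).1,
      (mul_le_of_le_one_left (pow_bound d0 d1 k).1 (pow_le_one₀ q0 q1)).trans
        (pow_bound d0 d1 k).2⟩
  have h2 := (h 2).2
  have h3 := (h 3).1
  have h4 := (h 4).2
  have h5 := (h 5).1
  have h6 := (h 6).2
  have h7 := (h 7).1
  have h8 := (h 8).2
  have e : Vf (1 - (1 - δ) * q) = (1 - δ) * Vf (1 - q) + δ * (1 - hf (1 - q)) +
      (34329231 / 25000 * (q ^ 2 * ((1 - δ) ^ 2 - 1 + (2 : ℕ) * δ)) -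
      2282026 / 625 * (q ^ 3 * ((1 - δ) ^ 3 - 1 + (3 : ℕ) * δ)) +
      37417403 / 6250 * (q ^ 4 * ((1 - δ) ^ 4 - 1 + (4 : ℕ) * δ)) -
      19414078 / 3125 * (q ^ 5 * ((1 - δ) ^ 5 - 1 + (5 : ℕ) * δ)) +
      12468456 / 3125 * (q ^ 6 * ((1 - δ) ^ 6 - 1 + (6 : ℕ) * δ)) -
      907196 / 625 * (q ^ 7 * ((1 - δ) ^ 7 - 1 + (7 : ℕ) * δ)) +
      716256 / 3125 * (q ^ 8 * ((1 - δ) ^ 8 - 1 + (8 : ℕ) * δ))) := by
    unfold Vf hf
    push_cast
    ring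
  rw [e]
  generalize q ^ 2 * ((1 - δ) ^ 2 - 1 + (2 : ℕ) * δ) = a2 at *
  generalize q ^ 3 * ((1 - δ) ^ 3 - 1 + (3 : ℕ) * δ) = a3 at *
  generalize q ^ 4 * ((1 - δ) ^ 4 - 1 + (4 : ℕ) * δ) = a4 at *
  generalize q ^ 5 * ((1 - δ) ^ 5 - 1 + (5 : ℕ) * δ) = a5 at *
  generalize q ^ 6 * ((1 - δ) ^ 6 - 1 + (6 : ℕ) * δ) = a6 at *
  generalize q ^ 7 * ((1 - δ) ^ 7 - 1 + (7 : ℕ) * δ) = a7 at *
  generalize q ^ 8 * ((1 - δ) ^ 8 - 1 + (8 : ℕ) * δ) = a8 at *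
  push_cast at h2 h4 h6 h8
  have := sq_nonneg δ
  linarith

variable {κ : Type*} [Fintype κ] {c : Finset ℕ → κ} {U : Finset ℕ}

theorem approx (hc : ∀ R, Ins (Bad c U R)) {L : ℕ} (hL : 0 < L) :
    (357 / 1000 : ℝ) * U.card - (260000 * U.card + U.card ^ 2) / L ≤ Fintype.card κ := by
  classical
  have L0 : (0 : ℝ) < L := Nat.cast_pos.2 hL
  set t : ℝ := (1 / 2) ^ (L : ℝ)⁻¹ with ht
  have t0 : 0 ≤ t := Real.rpow_nonneg (by norm_num) _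
  have t1 : t ≤ 1 := Real.rpow_le_one (by norm_num) (by norm_num) (by positivity)
  have tL : t ^ L = 1 / 2 := Real.rpow_inv_natCast_pow (by norm_num) hL.ne'
  set δ := 1 - t with hδ
  have d0 : 0 ≤ δ := by linarith
  have d1 : δ ≤ 1 := by linarith
  have e : t = 1 - δ := by linarith
  have dL : L * δ ≤ 1 := by
    have h1 := one_add_mul_le_pow (show -2 ≤ δ by linarith) L
    have h2 : (1 + δ) ^ L * t ^ L ≤ 1 := by
      rw [← mul_pow]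
      exact pow_le_one₀ (by positivity) (by nlinarith)
    rw [tL] at h2
    linarith
  have q0 : ∀ r : ℕ, 0 ≤ t ^ r := fun r => pow_nonneg t0 r
  have q1 : ∀ r : ℕ, t ^ r ≤ 1 := fun r => pow_le_one₀ t0 t1
  have q2 : ∀ r < L, 1 - t ^ r ≤ 1 / 2 := fun r hr => by
    linarith [pow_le_pow_of_le_one t0 t1 hr.le]
  have q3 : ∀ r : ℕ, 0 ≤ (r : ℝ) * (260000 * δ ^ 2) := fun r => by positivity
  obtain ⟨D, -, hD⟩ := chain hc d0 d1 (fun r => 1 - t ^ r)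
    (fun r => Vf (1 - t ^ r) - r * (260000 * δ ^ 2)) (fun r => hf (1 - t ^ r)) L (by simp)
    (fun r => ⟨sub_nonneg.2 (q1 r), sub_le_self _ (q0 r)⟩)
    (fun r => by
      rw [← e]
      ring) (by simp [Vf])
    (fun r _ => by
      have h1 := step (q0 r) (q1 r) d0 d1
      have h2 := mul_nonneg d0 (q3 r)
      rw [show (1 - δ) * t ^ r = t ^ (r + 1) by rw [← e, pow_succ']] at h1
      rw [Nat.cast_succ]
      linarith)
    (fun r hr => ⟨le_trans (add_nonneg (mul_nonneg (sub_nonneg.2 (q1 r)) (sub_nonneg.2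
      (pow_le_one₀ (by linarith [q0 r]) (by linarith [q1 r]))))
      (mul_nonneg (by linarith [q0 r]) (by positivity)))
      (num2 (sub_nonneg.2 (q1 r)) (q2 r hr)), num4 (sub_nonneg.2 (q1 r)) (q2 r hr)⟩)
    (fun r hr X F hF hI => (dich (X := X) (sub_nonneg.2 (q1 r)) (q2 r hr) hF hI
      (num2 (sub_nonneg.2 (q1 r)) (q2 r hr)) (num3 (sub_nonneg.2 (q1 r)) (q2 r hr))).imp_right
      fun ⟨e, he, h⟩ => ⟨e, he, by linarith [num1 (sub_nonneg.2 (q1 r)) (q2 r hr), q3 r]⟩)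
    L le_rfl ∅ U (fun _ => 0) (disjoint_empty_right _) Subset.rfl monotone_const
  have h1 : (cnt c ∅ D : ℝ) ≤ Fintype.card κ := Nat.cast_le.2 (card_le_univ _)
  have h2 : Vf (1 - 1 / 2) = 17857 / 50000 := by
    unfold Vf
    norm_num
  have h3 : L * δ ^ 2 ≤ (L : ℝ)⁻¹ := by
    rw [← one_div, le_div_iff₀ L0]
    nlinarith [mul_nonneg L0.le d0]
  have u0 : (0 : ℝ) ≤ U.card := Nat.cast_nonneg _
  have h4 := mul_le_mul_of_nonneg_left h3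
    (add_nonneg (mul_nonneg (show (0 : ℝ) ≤ 260000 by norm_num) u0) (sq_nonneg (U.card : ℝ)))
  rw [tL, h2, E_const] at hD
  rw [div_eq_mul_inv (260000 * _ + _)]
  linarith

theorem main (hc : ∀ R, Ins (Bad c U R)) : (357 / 1000 : ℝ) * U.card ≤ Fintype.card κ := by
  have h := (tendsto_const_div_atTop_nhds_zero_nat
    ((260000 : ℝ) * U.card + U.card ^ 2)).const_sub ((357 / 1000 : ℝ) * U.card)
  rw [sub_zero] at h
  exact le_of_tendsto h ((Filter.eventually_gt_atTop 0).mono fun L hL => approx hc hL)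

theorem colour {n k : ℕ} (col : Finset (Fin n) → Fin k)
    (h : ∀ A B C, col A = col C → col B = col C → A ≠ B → A ≠ C → B ≠ C → A ∪ B ≠ C) :
    (357 / 1000 : ℝ) * n ≤ k := by
  have := main (c := fun T => col (univ.filter fun i : Fin n => (i : ℕ) ∉ T)) (U := range n) ?_
  · simpa using this
  rintro R D D' ⟨T, a1, ⟨x, a2⟩, a3, a4, a5⟩ ⟨T', b1, ⟨y, b2⟩, b3, b4, b5⟩ hD
  have hT := disjoint_left.1 (hD.mono a1 b1)
  have hx := disjoint_left.1 a3 a2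
  have hy := disjoint_left.1 b3 b2
  refine h _ _ _ a5 b5 (fun h1 => ?_) (fun h1 => ?_) (fun h1 => ?_) ?_
  · simpa [a2, hx, hT a2] using Finset.ext_iff.1 h1 ⟨x, mem_range.1 (a4 a2)⟩
  · simpa [a2, hx] using Finset.ext_iff.1 h1 ⟨x, mem_range.1 (a4 a2)⟩
  · simpa [b2, hy] using Finset.ext_iff.1 h1 ⟨y, mem_range.1 (b4 b2)⟩
  · ext i
    have := @hT i
    simp only [mem_union, mem_filter, mem_univ, true_and]
    tauto

end Pool.Agent.P.MP_307ae8_co
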