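import Mathlib

/-! The biased product measure on the subsets of a finite set of natural numbers. -/

namespace Pool.Agent.P.MP_307ae8_co

open Finset

/-- Expectation of `f` at a random subset of `X` of density `p`. -/
noncomputable def E (p : ℝ) (X : Finset ℕ) (f : Finset ℕ → ℝ) : ℝ :=
  ∑ D ∈ X.powerset, p ^ D.card * (1 - p) ^ (X.card - D.card) * f D

variable {p : ℝ} {X : Finset ℕ} {f g : Finset ℕ → ℝ}

theorem E_empty : E p ∅ f = f ∅ := by simp [E]

theorem E_insert {e : ℕ} (he : e ∉ X) :
    E p (insert e X) f = (1 - p) * E p X f + p * E p X (fun D => f (insert e D)) := by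
  unfold E
  rw [sum_powerset_insert he, mul_sum, mul_sum, card_insert_of_notMem he]
  congr 1
  · refine sum_congr rfl fun D hD => ?_
    rw [Nat.succ_sub (card_le_card (mem_powerset.1 hD)), pow_succ]
    ring
  · refine sum_congr rfl fun D hD => ?_
    rw [card_insert_of_notMem fun h => he (mem_powerset.1 hD h), Nat.add_sub_add_right, pow_succ]
    ring

theorem E_congr (h : ∀ D ⊆ X, f D = g D) : E p X f = E p X g :=
  sum_congr rfl fun D hD => by rw [h D (mem_powerset.1 hD)]

theorem E_mono (h0 : 0 ≤ p) (h1 : p ≤ 1) (h : ∀ D ⊆ X, f D ≤ g D) : E p X f ≤ E p X g :=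
  sum_le_sum fun D hD => mul_le_mul_of_nonneg_left (h D (mem_powerset.1 hD))
    (mul_nonneg (pow_nonneg h0 _) (pow_nonneg (sub_nonneg.2 h1) _))

theorem E_add : E p X (fun D => f D + g D) = E p X f + E p X g := by
  simp only [E, mul_add, sum_add_distrib]

theorem E_sub : E p X (fun D => f D - g D) = E p X f - E p X g := by
  simp only [E, mul_sub, sum_sub_distrib]

theorem E_mul (c : ℝ) : E p X (fun D => c * f D) = c * E p X f := by
  simp only [E, mul_sum]
  exact sum_congr rfl fun D _ => by ring

theorem E_const (c : ℝ) : E p X (fun _ => c) = c := by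
  induction X using Finset.induction_on with
  | empty => exact E_empty
  | insert e X he ih =>
    rw [E_insert he, ih]
    ring

theorem E_zero : E 0 X f = f ∅ := by
  induction X using Finset.induction_on with
  | empty => exact E_empty
  | insert e X he ih =>
    rw [E_insert he, ih]
    ring

theorem E_card : E p X (fun D => (D.card : ℝ)) = p * X.card := by
  induction X using Finset.induction_on with
  | empty => simp [E_empty]
  | insert e X he ih =>
    have : E p X (fun D => ((insert e D).card : ℝ)) = E p X (fun D => (D.card : ℝ) + 1) :=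
      E_congr fun D hD => by rw [card_insert_of_notMem fun h => he (hD h), Nat.cast_succ]
    rw [E_insert he, this, E_add, E_const, ih, card_insert_of_notMem he, Nat.cast_succ]
    ring

theorem E_ite : E p X (fun D => if D = ∅ then 1 else 0) = (1 - p) ^ X.card := by
  induction X using Finset.induction_on with
  | empty => simp [E_empty]
  | insert e X he ih =>
    have : E p X (fun D => if insert e D = ∅ then (1 : ℝ) else 0) = E p X (fun _ => 0) :=
      E_congr fun D _ => if_neg (insert_ne_empty _ _)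
    rw [E_insert he, this, E_const, ih, card_insert_of_notMem he, pow_succ]
    ring

theorem E_erase_le (h0 : 0 ≤ p) (h1 : p ≤ 1) (hf : Monotone f) (e : ℕ) :
    E p (X.erase e) f ≤ E p X f := by
  by_cases he : e ∈ X
  · have h2 : E p (X.erase e) f ≤ E p (X.erase e) (fun D => f (insert e D)) :=
      E_mono h0 h1 fun D _ => hf (subset_insert _ _)
    have h3 := E_insert (p := p) (f := f) (notMem_erase e X)
    rw [insert_erase he] at h3
    rw [h3]
    nlinarith
  · rw [erase_eq_of_notMem he]

theorem E_comp {δ p' : ℝ} (h : 1 - p' = (1 - δ) * (1 - p)) :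
    E δ X (fun S => E p (X \ S) fun D => f (S ∪ D)) = E p' X f := by
  induction X using Finset.induction_on generalizing f with
  | empty => simp [E_empty]
  | insert e X he ih =>
    have e1 : E δ X (fun S => E p (insert e X \ S) fun D => f (S ∪ D)) =
        E δ X (fun S => (1 - p) * (E p (X \ S) fun D => f (S ∪ D)) +
          p * (E p (X \ S) fun D => f (insert e (S ∪ D)))) :=
      E_congr fun S hS => by
        rw [insert_sdiff_of_notMem _ fun h => he (hS h),
          E_insert fun h => he (mem_sdiff.1 h).1]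
        simp only [union_insert]
    have e2 : E δ X (fun S => E p (insert e X \ insert e S) fun D => f (insert e S ∪ D)) =
        E δ X (fun S => E p (X \ S) fun D => f (insert e (S ∪ D))) :=
      E_congr fun S _ => by
        rw [insert_sdiff_insert, sdiff_insert_of_notMem he]
        simp only [insert_union]
    rw [E_insert he, e1, e2, E_add, E_mul, E_mul, ih, ih (f := fun D => f (insert e D)),
      E_insert he, h, show p' = 1 - (1 - δ) * (1 - p) by linarith]
    ring

open Classical in
/-- The indicator function of a family. -/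
noncomputable def ind (F : Finset ℕ → Prop) (D : Finset ℕ) : ℝ := if F D then 1 else 0

/-- The measure of a family. -/
noncomputable def μ (p : ℝ) (X : Finset ℕ) (F : Finset ℕ → Prop) : ℝ := E p X (ind F)

/-- The family is closed upwards. -/
def Up (F : Finset ℕ → Prop) : Prop := ∀ D D', D ⊆ D' → F D → F D'

/-- The two families are cross-intersecting on `X`. -/
def Cr (X : Finset ℕ) (A B : Finset ℕ → Prop) : Prop :=
  ∀ D ⊆ X, ∀ D' ⊆ X, A D → B D' → ¬ Disjoint D D'

variable {F A B : Finset ℕ → Prop}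

theorem ind_nonneg (D : Finset ℕ) : 0 ≤ ind F D := by
  unfold ind
  split_ifs <;> norm_num

theorem ind_le {D D' : Finset ℕ} (h : A D → B D') : ind A D ≤ ind B D' := by
  unfold ind
  by_cases h1 : A D
  · rw [if_pos h1, if_pos (h h1)]
  · rw [if_neg h1]
    exact ind_nonneg D'

theorem Up.mono (h : Up F) : Monotone (ind F) := fun D D' hD => ind_le (h D D' hD)

theorem Up.ins (h : Up F) (e : ℕ) : Up fun D => F (insert e D) :=
  fun _ _ hD => h _ _ (insert_subset_insert e hD)

theorem μ_insert {e : ℕ} (he : e ∉ X) :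
    μ p (insert e X) F = (1 - p) * μ p X F + p * μ p X (fun D => F (insert e D)) :=
  E_insert he

theorem μ_nonneg (h0 : 0 ≤ p) (h1 : p ≤ 1) : 0 ≤ μ p X F :=
  (E_const 0).symm.trans_le (E_mono h0 h1 fun D _ => ind_nonneg D)

theorem μ_mono (h0 : 0 ≤ p) (h1 : p ≤ 1) (h : ∀ D ⊆ X, A D → B D) : μ p X A ≤ μ p X B :=
  E_mono h0 h1 fun D hD => ind_le (h D hD)

theorem μ_le_ins (h0 : 0 ≤ p) (h1 : p ≤ 1) (h : Up F) (e : ℕ) :
    μ p X F ≤ μ p X fun D => F (insert e D) :=
  μ_mono h0 h1 fun _ _ => h _ _ (subset_insert _ _)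

theorem Cr.symm (h : Cr X A B) : Cr X B A := fun D hD D' hD' h1 h2 h3 =>
  h D' hD' D hD h2 h1 h3.symm

theorem Cr.sub {Y : Finset ℕ} (h : Cr X A B) (hY : Y ⊆ X) : Cr Y A B :=
  fun D hD D' hD' => h D (hD.trans hY) D' (hD'.trans hY)

theorem Cr.ins {e : ℕ} (he : e ∉ X) (h : Cr (insert e X) A B) :
    Cr X (fun D => A (insert e D)) B := fun D hD D' hD' h1 h2 h3 =>
  h _ (insert_subset_insert e hD) D' (hD'.trans (subset_insert _ _)) h1 h2
    (disjoint_insert_left.2 ⟨fun h4 => he (hD' h4), h3⟩)

theorem Cr.add_le (h0 : 0 ≤ p) (h1 : p ≤ 1) (h : Cr X A B) : μ p X A + μ (1 - p) X B ≤ 1 := by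
  induction X using Finset.induction_on generalizing A B with
  | empty =>
    have := h ∅ Subset.rfl ∅ Subset.rfl
    simp only [μ, E_empty, ind]
    split_ifs with h2 h3
    · exact (this h2 h3 (disjoint_empty_left _)).elim
    all_goals norm_num
  | insert e X he ih =>
    have h2 := ih (h.ins he)
    have h3 := ih (h.symm.ins he).symm
    rw [μ_insert he, μ_insert he]
    nlinarith

theorem exists_comb {a b x : ℝ} (h1 : a ≤ x) (h2 : x ≤ b) :
    ∃ s : ℝ, 0 ≤ s ∧ s ≤ 1 ∧ x = (1 - s) * a + s * b := by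
  rcases (h1.trans h2).eq_or_lt with h | h
  · exact ⟨0, le_rfl, zero_le_one, by linarith⟩
  · have h3 := sub_pos.2 h
    refine ⟨(x - a) / (b - a), div_nonneg (sub_nonneg.2 h1) h3.le,
      (div_le_one h3).2 (by linarith), ?_⟩
    field_simp
    ring

theorem μ_rpow {q τ : ℝ} (h0 : 0 ≤ q) (h1 : q ≤ 1) (hτ : 1 ≤ τ) (h : Up F) :
    μ (q ^ τ) X F ≤ μ q X F ^ τ := by
  have p0 : 0 ≤ q ^ τ := Real.rpow_nonneg h0 _
  have p1 : q ^ τ ≤ 1 := Real.rpow_le_one h0 h1 (by linarith)
  induction X using Finset.induction_on generalizing F with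
  | empty =>
    simp only [μ, E_empty, ind]
    split_ifs
    · rw [Real.one_rpow]
    · exact Real.rpow_nonneg le_rfl _
  | insert e X he ih =>
    have a1 := ih h
    have a2 := ih (h.ins e)
    have a3 := μ_le_ins (X := X) h0 h1 h e
    have a4 := μ_nonneg (X := X) (F := F) h0 h1
    rw [μ_insert he, μ_insert he]
    set y := μ q X F
    set x := μ q X fun D => F (insert e D)
    have b1 : q * y ≤ q * x := mul_le_mul_of_nonneg_left a3 h0
    have b2 : 0 ≤ (1 - q) * y := mul_nonneg (sub_nonneg.2 h1) a4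
    have b3 : 0 ≤ q * y := mul_nonneg h0 a4
    obtain ⟨s, s0, s1, hs⟩ := exists_comb (a := q * y) (x := y) (b := (1 - q) * y + q * x)
      (by linarith) (by linarith)
    have c1 := (convexOn_rpow hτ).2 (x := q * y) (y := (1 - q) * y + q * x) b3
      (show (0 : ℝ) ≤ _ by linarith) (sub_nonneg.2 s1) s0 (by ring)
    have c2 := (convexOn_rpow hτ).2 (x := q * y) (y := (1 - q) * y + q * x) b3
      (show (0 : ℝ) ≤ _ by linarith) s0 (sub_nonneg.2 s1) (by ring)
    simp only [smul_eq_mul] at c1 c2
    rw [← hs] at c1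
    rw [show s * (q * y) + (1 - s) * ((1 - q) * y + q * x) = q * x by linarith,
      Real.mul_rpow h0 (a4.trans a3)] at c2
    rw [Real.mul_rpow h0 a4] at c1 c2
    have d1 := mul_le_mul_of_nonneg_left a1 (sub_nonneg.2 p1)
    have d2 := mul_le_mul_of_nonneg_left a2 p0
    linarith

/-- The chord inequalities between the measures of two cross-intersecting families. -/
def CH (p x y : ℝ) : Prop :=
  ∀ (s t : ℝ) (k l : ℕ), 0 ≤ s → 0 ≤ t → s + t ≤ 1 → s * p ^ k + t * p ^ l ≤ x →
    s * (1 - p) ^ k + t * (1 - p) ^ l ≤ 1 - y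

theorem Cr.ch (h0 : 0 < p) (h1 : p ≤ 1 / 2) (hB : Up B) (h : Cr X A B) :
    CH p (μ p X B) (μ p X A) := by
  intro s t k l s0 t0 st hx
  have q0 : 0 < 1 - p := by linarith
  have q1 : 1 - p < 1 := by linarith
  set τ := Real.logb (1 - p) p with hτ
  have e1 : (1 - p) ^ τ = p := Real.rpow_logb q0 q1.ne h0
  have τ1 : 1 ≤ τ := by
    by_contra h2
    have := Real.rpow_lt_rpow_of_exponent_gt q0 q1 (not_le.1 h2)
    rw [e1, Real.rpow_one] at this
    linarith
  have a1 := μ_rpow (X := X) q0.le q1.le τ1 hB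
  rw [e1] at a1
  have a2 := h.add_le h0.le (by linarith)
  have a3 := μ_nonneg (X := X) (F := B) q0.le q1.le
  by_contra h2
  have a4 := Real.rpow_lt_rpow a3 (show μ (1 - p) X B < s * (1 - p) ^ k + t * (1 - p) ^ l by
    linarith [not_le.1 h2]) (show 0 < τ by linarith)
  have a5 := Real.rpow_arith_mean_le_arith_mean_rpow (univ : Finset (Fin 3)) ![s, t, 1 - s - t]
    ![(1 - p) ^ k, (1 - p) ^ l, 0]
    (fun i _ => by fin_cases i <;> simp <;> linarith) (by simp [Fin.sum_univ_three])
    (fun i _ => by fin_cases i <;> simp <;> positivity) τ1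
  have e2 : ∀ k : ℕ, ((1 - p) ^ k) ^ τ = p ^ k := fun k => by
    rw [← Real.rpow_natCast, ← Real.rpow_mul q0.le, mul_comm, Real.rpow_mul q0.le, e1,
      Real.rpow_natCast]
  simp only [Fin.sum_univ_three, Matrix.cons_val_zero, Matrix.cons_val_one, Matrix.cons_val,
    mul_zero, add_zero, e2, Real.zero_rpow (show τ ≠ 0 by linarith)] at a5
  linarith

theorem ekr (h0 : 0 < p) (h1 : p ≤ 1 / 2) (hF : Up F) (h : Cr X F F) : μ p X F ≤ p := by
  by_contra h2
  have := h.ch h0 h1 hF 1 0 1 0 zero_le_one le_rfl (by norm_num) (by linarith [not_le.1 h2])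
  exact h2 (by linarith)

end Pool.Agent.P.MP_307ae8_co
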