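import Pool.Agent.P.MP_307ae8_co.Meas

/-! Shifting of intersecting families. -/

namespace Pool.Agent.P.MP_307ae8_co

open Finset

variable {p : ℝ} {X D D' : Finset ℕ} {F : Finset ℕ → Prop} {i j : ℕ}

/-- The image of a set under a transposition. -/
def sw (i j : ℕ) (D : Finset ℕ) : Finset ℕ := D.map (Equiv.swap i j).toEmbedding

theorem mem_sw {x : ℕ} : x ∈ sw i j D ↔ Equiv.swap i j x ∈ D := by
  rw [sw, mem_map_equiv, Equiv.symm_swap]

theorem sw_sw : sw i j (sw i j D) = D := by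
  ext x
  rw [mem_sw, mem_sw, Equiv.swap_apply_self]

theorem sw_mono (h : D ⊆ D') : sw i j D ⊆ sw i j D' := map_subset_map.2 h

theorem sw_same (h : i ∈ D ↔ j ∈ D) : sw i j D = D := by
  ext x
  rw [mem_sw, Equiv.swap_apply_def]
  split_ifs with h1 h2
  · rw [h1, h]
  · rw [h2, h]
  · rfl

theorem sw_eq (hi : i ∉ D) (hj : j ∈ D) : sw i j D = insert i (D.erase j) := by
  ext x
  rw [mem_sw, Equiv.swap_apply_def, mem_insert, mem_erase]
  split_ifs with h1 h2
  · simp [h1, hj]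
  · simp [h1, h2, hi]
    exact fun h => h1 (h2.trans h)
  · simp [h1, h2]

theorem sum_sw {M : Type*} [AddCommMonoid M] (hi : i ∈ X) (hj : j ∈ X) (g : Finset ℕ → M) :
    ∑ D ∈ X.powerset, g (sw i j D) = ∑ D ∈ X.powerset, g D := by
  have h : ∀ D ∈ X.powerset, sw i j D ∈ X.powerset := fun D hD =>
    mem_powerset.2 ((sw_mono (mem_powerset.1 hD)).trans (sw_same (iff_of_true hi hj)).subset)
  exact sum_nbij' (sw i j) (sw i j) h h (fun _ _ => sw_sw) (fun _ _ => sw_sw) fun _ _ => rfl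

theorem E_sw (hi : i ∈ X) (hj : j ∈ X) (g : Finset ℕ → ℝ) :
    E p X (fun D => g (sw i j D)) = E p X g := by
  unfold E
  rw [← sum_sw hi hj fun D => p ^ D.card * (1 - p) ^ (X.card - D.card) * g D]
  simp only [sw, card_map]

/-- The shifted family. -/
def sh (i j : ℕ) (F : Finset ℕ → Prop) (D : Finset ℕ) : Prop :=
  (F D ∧ F (sw i j D)) ∨ ((F D ∨ F (sw i j D)) ∧ (i ∈ D ∨ j ∉ D))

/-- The family is intersecting. -/
def Ins (F : Finset ℕ → Prop) : Prop := ∀ D D', F D → F D' → ¬ Disjoint D D'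

theorem Ins.cr (h : Ins F) : Cr X F F := fun D _ D' _ => h D D'

theorem sh_same (h : i ∈ D ↔ j ∈ D) : sh i j F D ↔ F D := by
  rw [sh, sw_same h]
  tauto

theorem Up.sh (h : Up F) : Up (sh i j F) := by
  rintro D D' hD (h1 | ⟨h1, h2⟩)
  · exact Or.inl ⟨h _ _ hD h1.1, h _ _ (sw_mono hD) h1.2⟩
  · by_cases h3 : i ∈ D' ∨ j ∉ D'
    · exact Or.inr ⟨h1.imp (h _ _ hD) (h _ _ (sw_mono hD)), h3⟩
    · have h4 : i ∉ D := fun h5 => h3 (Or.inl (hD h5))
      have h5 : sw i j D = D := sw_same (iff_of_false h4 (h2.resolve_left h4))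
      rw [h5, or_self] at h1
      exact Or.inl ⟨h _ _ hD h1, h _ _ (h5.symm.subset.trans (sw_mono hD)) h1⟩

theorem Ins.sh (h : Ins F) : Ins (sh i j F) := by
  intro D D' h1 h2 h3
  have h4 : Disjoint (sw i j D) (sw i j D') := (disjoint_map _).2 h3
  have a1 := fun a b => h D D' a b h3
  have a2 := fun a b => h _ _ a b h4
  have a3 : ¬ (i ∈ D ∧ i ∈ D') := fun h5 => disjoint_left.1 h3 h5.1 h5.2
  have a4 : (i ∈ D ↔ j ∈ D) → (F (sw i j D) ↔ F D) := fun h5 => by rw [sw_same h5]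
  have a5 : (i ∈ D' ↔ j ∈ D') → (F (sw i j D') ↔ F D') := fun h5 => by rw [sw_same h5]
  unfold Pool.Agent.P.MP_307ae8_co.sh at h1 h2
  tauto

theorem sh_pair (hi : i ∉ D) (hj : j ∈ D) :
    (sh i j F D ↔ F D ∧ F (sw i j D)) ∧ (sh i j F (sw i j D) ↔ F D ∨ F (sw i j D)) := by
  have : i ∈ sw i j D := by rwa [mem_sw, Equiv.swap_apply_left]
  rw [sh, sh, sw_sw]
  tauto

theorem sw_cases (P : Finset ℕ → Prop) (h1 : ∀ D, (i ∈ D ↔ j ∈ D) → P D)
    (h2 : ∀ D, i ∉ D → j ∈ D → P D) (h3 : ∀ D, P (sw i j D) → P D) (D : Finset ℕ) : P D := by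
  by_cases hi : i ∈ D <;> by_cases hj : j ∈ D
  · exact h1 D (iff_of_true hi hj)
  · exact h3 D (h2 _ (by rwa [mem_sw, Equiv.swap_apply_left])
      (by rwa [mem_sw, Equiv.swap_apply_right]))
  · exact h2 D hi hj
  · exact h1 D (iff_of_false hi hj)

theorem μ_sh (hi : i ∈ X) (hj : j ∈ X) : μ p X (sh i j F) = μ p X F := by
  classical
  have h : ∀ D, ind (sh i j F) D + ind (sh i j F) (sw i j D) = ind F D + ind F (sw i j D) := by
    refine sw_cases (i := i) (j := j) _ (fun D h => ?_) (fun D h1 h2 => ?_) fun D h => ?_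
    · rw [sw_same h, le_antisymm (ind_le (sh_same h).1) (ind_le (sh_same h).2)]
    · obtain ⟨a1, a2⟩ := sh_pair (F := F) h1 h2
      unfold ind
      rw [if_congr a1 rfl rfl, if_congr a2 rfl rfl]
      by_cases b1 : F D <;> by_cases b2 : F (sw i j D) <;> simp [b1, b2]
    · rw [sw_sw] at h
      linarith
  have h2 : E p X (fun D => ind (sh i j F) D + ind (sh i j F) (sw i j D)) =
      E p X (fun D => ind F D + ind F (sw i j D)) := E_congr fun D _ => h D
  rw [E_add, E_add, E_sw hi hj, E_sw hi hj] at h2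
  unfold μ
  linarith

open Classical in
/-- The potential which decreases under shifting. -/
noncomputable def pot (X : Finset ℕ) (F : Finset ℕ → Prop) : ℕ :=
  ∑ D ∈ X.powerset, if F D then ∑ x ∈ D, x else 0

theorem sum_sw_lt (hij : i < j) (hi : i ∉ D) (hj : j ∈ D) : ∑ x ∈ sw i j D, x < ∑ x ∈ D, x := by
  rw [sw_eq hi hj, sum_insert fun h => hi (mem_of_mem_erase h), ← add_sum_erase D _ hj]
  exact Nat.add_lt_add_right hij _

theorem pot_sh (hij : i < j) (hi : i ∈ X) (hj : j ∈ X) (hD : D ⊆ X) (h1 : i ∉ D) (h2 : j ∈ D)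
    (h3 : F D) (h4 : ¬ F (sw i j D)) : pot X (sh i j F) < pot X F := by
  classical
  set t : (Finset ℕ → Prop) → Finset ℕ → ℕ := fun G D => if G D then ∑ x ∈ D, x else 0 with ht
  have h : ∀ D, t (sh i j F) D + t (sh i j F) (sw i j D) ≤ t F D + t F (sw i j D) := by
    refine sw_cases (i := i) (j := j) _ (fun D h => ?_) (fun D h1 h2 => ?_) fun D h => ?_
    · simp only [ht, sw_same h, sh_same h, le_refl]
    · obtain ⟨a1, a2⟩ := sh_pair (F := F) h1 h2
      have := sum_sw_lt hij h1 h2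
      simp only [ht, a1, a2]
      by_cases b1 : F D <;> by_cases b2 : F (sw i j D) <;> simp [b1, b2]
      exact this.le
    · rw [sw_sw] at h
      linarith
  have h5 : ∑ D ∈ X.powerset, (t (sh i j F) D + t (sh i j F) (sw i j D)) <
      ∑ D ∈ X.powerset, (t F D + t F (sw i j D)) :=
    sum_lt_sum (fun D _ => h D) ⟨D, mem_powerset.2 hD, by
      obtain ⟨a1, a2⟩ := sh_pair (F := F) h1 h2
      simpa [ht, a1, a2, h3, h4] using sum_sw_lt hij h1 h2⟩
  rw [sum_add_distrib, sum_add_distrib, sum_sw hi hj, sum_sw hi hj] at h5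
  have e : ∀ G, pot X G = ∑ D ∈ X.powerset, t G D := fun G =>
    sum_congr rfl fun D _ => by simp only [ht]
  rw [e, e]
  omega

/-- The family is shifted on `X`. -/
def Shf (X : Finset ℕ) (F : Finset ℕ → Prop) : Prop :=
  ∀ i ∈ X, ∀ j ∈ X, i < j → ∀ D ⊆ X, i ∉ D → j ∈ D → F D → F (insert i (D.erase j))

theorem exists_shift (h0 : 0 ≤ p) (h1 : p ≤ 1) {a : ℝ} (hF : Up F) (hI : Ins F)
    (ha : ∀ e ∈ X, a < μ p (X.erase e) F) :
    ∃ G, Up G ∧ Ins G ∧ μ p X G = μ p X F ∧ (∀ e ∈ X, a < μ p (X.erase e) G) ∧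
      (Shf X G ∨ ∃ i ∈ X, ∃ j ∈ X, i ≠ j ∧ μ p ((X.erase i).erase j) G ≤ a) := by
  induction hn : pot X F using Nat.strong_induction_on generalizing F with
  | _ n ih =>
  by_cases h : Shf X F
  · exact ⟨F, hF, hI, rfl, ha, Or.inl h⟩
  simp only [Shf, not_forall] at h
  obtain ⟨i, hi, j, hj, hij, D, hD, h2, h3, h4, h5⟩ := h
  rw [← sw_eq h2 h3] at h5
  by_cases h6 : ∀ e ∈ X, a < μ p (X.erase e) (sh i j F)
  · obtain ⟨G, g1, g2, g3, g4⟩ := ih _ (hn ▸ pot_sh hij hi hj hD h2 h3 h4 h5) hF.sh hI.sh h6 rfl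
    exact ⟨G, g1, g2, g3.trans (μ_sh hi hj), g4⟩
  simp only [not_forall, not_lt] at h6
  obtain ⟨e, he, h6⟩ := h6
  refine ⟨F, hF, hI, rfl, ha, Or.inr ⟨i, hi, j, hj, hij.ne, ?_⟩⟩
  have h7 : μ p ((X.erase i).erase j) F ≤ μ p ((X.erase i).erase j) (sh i j F) :=
    μ_mono h0 h1 fun D hD => (sh_same (iff_of_false
      (fun h => notMem_erase i X (mem_of_mem_erase (hD h))) fun h => notMem_erase j _ (hD h))).2
  by_cases ei : e = i
  · exact h7.trans ((E_erase_le h0 h1 hF.sh.mono j).trans (ei ▸ h6))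
  by_cases ej : e = j
  · rw [erase_right_comm] at h7 ⊢
    exact h7.trans ((E_erase_le h0 h1 hF.sh.mono i).trans (ej ▸ h6))
  rw [μ_sh (mem_erase.2 ⟨Ne.symm ei, hi⟩) (mem_erase.2 ⟨Ne.symm ej, hj⟩)] at h6
  exact absurd (ha e he) (not_lt.2 h6)

/-- Any two members of the family inside `X` have at least `t` common elements. -/
def TI (t : ℕ) (X : Finset ℕ) (F : Finset ℕ → Prop) : Prop :=
  ∀ D ⊆ X, ∀ D' ⊆ X, F D → F D' → t ≤ (D ∩ D').card

theorem Shf.sub {e : ℕ} (h : Shf (insert e X) F) : Shf X F := fun i hi j hj hij D hD =>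
  h i (mem_insert_of_mem hi) j (mem_insert_of_mem hj) hij D (hD.trans (subset_insert _ _))

theorem Shf.ins {e : ℕ} (he : e ∉ X) (h : Shf (insert e X) F) :
    Shf X fun D => F (insert e D) := fun i hi j hj hij D hD h1 h2 h3 => by
  have := h i (mem_insert_of_mem hi) j (mem_insert_of_mem hj) hij _ (insert_subset_insert e hD)
    (by
      rw [mem_insert, not_or]
      exact ⟨fun h4 => he (h4 ▸ hi), h1⟩) (mem_insert_of_mem h2) h3
  rwa [erase_insert_of_ne fun h4 => he (by rwa [h4]), insert_comm] at this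

theorem TI.sub {t e : ℕ} (he : ∀ x ∈ X, e < x) (h : TI (t + 1) (insert e X) F)
    (hs : Shf (insert e X) F) : TI (t + 2) X F := by
  intro D hD D' hD' h1 h2
  have he' : e ∉ X := fun h3 => lt_irrefl _ (he e h3)
  have a1 := h D (hD.trans (subset_insert _ _)) D' (hD'.trans (subset_insert _ _)) h1 h2
  obtain ⟨x, hx⟩ := card_pos.1 (lt_of_lt_of_le (Nat.succ_pos t) a1)
  have hx' := hD (mem_inter.1 hx).1
  have a2 := h _ (insert_subset_insert e ((erase_subset x D).trans hD)) D'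
    (hD'.trans (subset_insert _ _)) (hs e (mem_insert_self _ _) x (mem_insert_of_mem hx')
      (he x hx') D (hD.trans (subset_insert _ _)) (fun h3 => he' (hD h3)) (mem_inter.1 hx).1 h1) h2
  rw [insert_inter_of_notMem fun h3 => he' (hD' h3), erase_inter, card_erase_of_mem hx] at a2
  omega

theorem TI.ins {t e : ℕ} (h : TI (t + 1) (insert e X) F) : TI t X fun D => F (insert e D) := by
  intro D hD D' hD' h1 h2
  have a1 := h _ (insert_subset_insert e hD) _ (insert_subset_insert e hD') h1 h2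
  rw [← insert_inter_distrib] at a1
  exact Nat.le_of_succ_le_succ (a1.trans (card_insert_le _ _))

theorem TI.cr (h : TI 1 X F) : Cr X F F := fun D hD D' hD' h1 h2 h3 => by
  have := h D hD D' hD' h1 h2
  rw [disjoint_iff_inter_eq_empty.1 h3, card_empty] at this
  omega

theorem Ins.ti (h : Ins F) : TI 1 X F := fun D _ D' _ h1 h2 =>
  card_pos.2 (not_disjoint_iff_nonempty_inter.1 (h D D' h1 h2))

theorem TI.bound (h0 : 0 < p) (h1 : p ≤ 1 / 2) {t : ℕ} (hF : Up F) (h : TI (t + 1) X F)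
    (hs : Shf X F) : (1 - p) ^ t * μ p X F ≤ p ^ (t + 1) := by
  induction X using Finset.induction_on_min generalizing F t with
  | empty =>
    have := h ∅ Subset.rfl ∅ Subset.rfl
    simp only [μ, E_empty, ind]
    rw [if_neg fun h2 => by simpa using this h2 h2, mul_zero]
    positivity
  | insert e X he ih =>
    have he' : e ∉ X := fun h3 => lt_irrefl _ (he e h3)
    rcases t with _ | t
    · simpa using ekr h0 h1 hF h.cr
    · have a1 := ih hF (h.sub he hs) hs.sub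
      have a2 := mul_le_mul_of_nonneg_left (ih (hF.ins e) h.ins (hs.ins he'))
        (mul_nonneg h0.le (show 0 ≤ 1 - p by linarith))
      rw [μ_insert he']
      calc _ = (1 - p) ^ (t + 1 + 1) * μ p X F +
            p * (1 - p) * ((1 - p) ^ t * μ p X fun D => F (insert e D)) := by ring
        _ ≤ p ^ (t + 1 + 1 + 1) + p * (1 - p) * p ^ (t + 1) := add_le_add a1 a2
        _ = _ := by ring

end Pool.Agent.P.MP_307ae8_co
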